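import Pool.Agent.Helper54.UN.St

/-!
Project UN (MP_d629b1_an), module SCL: a network multiplied by a number.
-/

set_option autoImplicit false

noncomputable section

namespace Pool.Agent.Helper11.UNC

open Set Filter Topology Pool.Agent.Helper71.UN Pool.Agent.Helper54.UN

private theorem conj_mul_aux (v d z : ℂ) : v * z * (starRingEnd ℂ) (v * d) =
    ((‖v‖ ^ 2 : ℝ) : ℂ) * (z * (starRingEnd ℂ) d) := by
  rw [map_mul]
  have h3 : v * (starRingEnd ℂ) v = ((‖v‖ ^ 2 : ℝ) : ℂ) := by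
    rw [Complex.mul_conj, Complex.normSq_eq_norm_sq]
  calc v * z * ((starRingEnd ℂ) v * (starRingEnd ℂ) d)
      = (v * (starRingEnd ℂ) v) * (z * (starRingEnd ℂ) d) := by ring
    _ = _ := by rw [h3]

private theorem quot_aux (a b c : ℝ) (ha : a ≠ 0) : a ^ 2 * b / (a * c) = a * (b / c) := by
  by_cases hc : c = 0
  · subst hc; simp
  · field_simp

private theorem hh_mul (v d z : ℂ) (hv : v ≠ 0) : hh (v * d) (v * z) = ‖v‖ * hh d z := by
  unfold hh
  rw [conj_mul_aux, Complex.im_ofReal_mul, norm_mul, quot_aux _ _ _ (norm_ne_zero_iff.2 hv)]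

private theorem tt_mul (v d z : ℂ) (hv : v ≠ 0) : tt (v * d) (v * z) = ‖v‖ * tt d z := by
  unfold tt
  rw [conj_mul_aux, Complex.re_ofReal_mul, norm_mul, quot_aux _ _ _ (norm_ne_zero_iff.2 hv)]

private theorem hh_pos (v d z : ℂ) (hv : v ≠ 0) : 0 < hh (v * d) (v * z) ↔ 0 < hh d z := by
  rw [hh_mul v d z hv]
  exact mul_pos_iff_of_pos_left (norm_pos_iff.2 hv)

private theorem hh_neg (v d z : ℂ) (hv : v ≠ 0) : hh (v * d) (v * z) < 0 ↔ hh d z < 0 := by
  rw [hh_mul v d z hv]
  have h := norm_pos_iff.2 hv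
  constructor
  · intro h1
    by_contra h2
    exact absurd h1 (not_lt.2 (mul_nonneg h.le (not_lt.1 h2)))
  · intro h1
    exact mul_neg_of_pos_of_neg h h1

private theorem hh_zero (v d z : ℂ) (hv : v ≠ 0) : hh (v * d) (v * z) = 0 ↔ hh d z = 0 := by
  rw [hh_mul v d z hv, mul_eq_zero]
  have h := norm_ne_zero_iff.2 hv
  tauto

private theorem tt_nonneg (v d z : ℂ) (hv : v ≠ 0) : 0 ≤ tt (v * d) (v * z) ↔ 0 ≤ tt d z := by
  rw [tt_mul v d z hv]
  exact mul_nonneg_iff_of_pos_left (norm_pos_iff.2 hv)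

private theorem ev_mul {v : ℂ} (hv : v ≠ 0) {P : ℂ → Prop} {y : ℂ}
    (h : ∀ᶠ z in 𝓝 y, P (v * z)) : ∀ᶠ x in 𝓝 (v * y), P x := by
  have hc : Tendsto (fun x : ℂ => x / v) (𝓝 (v * y)) (𝓝 y) := by
    have h1 : Continuous fun x : ℂ => x / v := continuous_id.div_const v
    have h2 := h1.tendsto (v * y)
    have h3 : v * y / v = y := mul_div_cancel_left₀ y hv
    rw [h3] at h2
    exact h2
  filter_upwards [hc.eventually h] with x hx
  rwa [mul_div_cancel₀ x hv] at hx

private theorem seg_mul {v : ℂ} (hv : v ≠ 0) (A B y : ℂ) :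
    v * y ∈ segment ℝ (v * A) (v * B) ↔ y ∈ segment ℝ A B := by
  constructor
  · rintro ⟨a, b, ha, hb, hab, h⟩
    refine ⟨a, b, ha, hb, hab, ?_⟩
    apply mul_left_cancel₀ hv
    rw [← h, mul_add, mul_smul_comm, mul_smul_comm]
  · rintro ⟨a, b, ha, hb, hab, h⟩
    refine ⟨a, b, ha, hb, hab, ?_⟩
    rw [← h, mul_add, mul_smul_comm, mul_smul_comm]

theorem hSCL : StSCL := by
  intro κ J n N N' S r₁ r₂ v hv H hpos hcls hra hrb hd hop hlp hlq he hlam hnu
  have hv' : 0 < ‖v‖ := norm_pos_iff.2 hv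
  have hsp : ∀ j c, N'.sp j c = v * N.sp j c := by
    intro j c
    unfold Nw.sp
    rw [hpos, hcls, hra, hrb]
  have hll : ∀ j c, N'.ll j c = N.ll j c := by
    intro j c
    unfold Nw.ll
    rw [hlp, hlq]
  have hrl : ∀ j c, N'.rl j c = N.rl j c := by
    intro j c
    unfold Nw.rl
    rw [hlp, hlq]
  have hx : ∀ x : ℂ, ∃ y, x = v * y := fun x => ⟨x / v, (mul_div_cancel₀ x hv).symm⟩
  have hend : ∀ j b, N'.sp j b + N'.d j = v * (N.sp j b + N.d j) := by
    intro j b
    rw [hsp, hd, mul_add]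
  have hpt : ∀ j b (t : ℝ), N'.sp j b + t * N'.d j = v * (N.sp j b + t * N.d j) := by
    intro j b t
    rw [hsp, hd]
    ring
  have hsub : ∀ j b y, v * y - N'.sp j b = v * (y - N.sp j b) := by
    intro j b y
    rw [hsp, mul_sub]
  refine
    { d_ne := ?_
      rab := ?_
      lpq := ?_
      sgn := ?_
      opop := ?_
      opd := ?_
      opsp := ?_
      oplp := ?_
      opsgn := ?_
      inj := ?_
      avoid := ?_
      disj := ?_
      wall := ?_
      vert := ?_
      off := ?_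
      labS := ?_
      inn := ?_
      out := ?_
      walls := ?_
      verts := ?_ }
  · intro j
    rw [hd]
    exact mul_ne_zero hv (H.d_ne j)
  · intro j
    rw [hra, hrb]
    exact H.rab j
  · intro j
    rw [hlp, hlq]
    exact H.lpq j
  · intro j
    rw [he]
    exact H.sgn j
  · intro j
    rw [hop]
    exact H.opop j
  · intro j
    rw [hd, hd, hop, H.opd j, mul_neg]
  · intro j c
    rw [hsp, hend, hop, H.opsp j c]
  · intro j
    rw [hlp, hlq, hop]
    exact H.oplp j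
  · intro j
    rw [he, hop]
    exact H.opsgn j
  · intro c a c' a' h
    rw [hpos, hpos] at h
    exact H.inj c a c' a' (mul_left_cancel₀ hv h)
  · intro j b c a t h0 h1 h
    rw [hpt, hpos] at h
    exact H.avoid j b c a t h0 h1 (mul_left_cancel₀ hv h)
  · intro j b j' b' t t' h0 h1 h2 h3 h
    rw [hpt, hpt] at h
    rw [hop]
    exact H.disj j b j' b' t t' h0 h1 h2 h3 (mul_left_cancel₀ hv h)
  · intro j b t h0 h1
    rw [hpt]
    apply ev_mul hv
    filter_upwards [H.wall j b t h0 h1] with y hy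
    rw [hsub, hd, hlam, hll, hrl, hh_pos _ _ _ hv, hh_neg _ _ _ hv]
    exact hy
  · intro c a
    have h := ev_mul (P := fun z => (∀ j, N'.cls j = c → (N'.ra j = a ∨ N'.rb j = a) →
      ¬ (hh (N'.d j) z = 0 ∧ 0 ≤ tt (N'.d j) z)) → N'.lam (N'.pos c a + z) = N'.nu c a z)
      (v := v) (y := 0) hv (by
        filter_upwards [H.vert c a] with z hz h
        have h1 : N'.pos c a + v * z = v * (N.pos c a + z) := by rw [hpos, mul_add]
        rw [h1, hlam, hnu]
        apply hz
        intro j hj1 hj2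
        have h2 := h j (by rw [hcls]; exact hj1) (by rw [hra, hrb]; exact hj2)
        rw [hd, hh_zero _ _ _ hv, tt_nonneg _ _ _ hv] at h2
        exact h2)
    rwa [mul_zero] at h
  · intro x h
    obtain ⟨y, rfl⟩ := hx x
    apply ev_mul hv
    have h1 := H.off y (fun j b hy => h j b (by
      rw [hend, hsp, seg_mul hv]
      exact hy))
    filter_upwards [h1] with z hz
    rw [hlam, hlam]
    exact hz
  · intro x
    obtain ⟨y, rfl⟩ := hx x
    rw [hlam]
    exact H.labS y
  · intro x h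
    obtain ⟨y, rfl⟩ := hx x
    rw [norm_mul] at h
    rw [hlam]
    exact H.inn y (lt_of_mul_lt_mul_left h hv'.le)
  · intro x h
    obtain ⟨y, rfl⟩ := hx x
    rw [norm_mul] at h
    rw [hlam]
    exact H.out y (lt_of_mul_lt_mul_left h hv'.le)
  · intro j b x h
    obtain ⟨y, rfl⟩ := hx x
    rw [hend, hsp, seg_mul hv] at h
    obtain ⟨h1, h2⟩ := H.walls j b y h
    rw [norm_mul]
    exact ⟨mul_lt_mul_of_pos_left h1 hv', mul_lt_mul_of_pos_left h2 hv'⟩
  · intro c a
    obtain ⟨h1, h2⟩ := H.verts c a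
    rw [hpos, norm_mul]
    exact ⟨mul_lt_mul_of_pos_left h1 hv', mul_lt_mul_of_pos_left h2 hv'⟩

end Pool.Agent.Helper11.UNC
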